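import Pool.Agent.Helper26_BSN.Stmts

/-!
# BSN, module FS1: freshness of families given by a condition: for all standard `m` there is `α`
-/

namespace Pool.Agent.BSN.H59

open Filter Cardinal Pool.Agent.BSig Pool.Agent.BSN

variable {τ : Tower}

/-- The sets of literals coded by `F` and `F'` have disjoint labels outside of `r`. -/
def Dj (r F F' : (MMt τ)) : Prop :=
  ∀ x, x ≤ F → ∀ x', x' ≤ F' → (Mem x F ∧ ¬ Mem x r ∧ Mem x' F' ∧ ¬ Mem x' r) →
    ¬ ∃ z, z ≤ x ∧ ((x = 2 * z ∨ x = 2 * z + 1) ∧ (x' = 2 * z ∨ x' = 2 * z + 1))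

theorem IsDelta0.dj {n : ℕ} {r F F' : (Fin n → (MMt τ)) → (MMt τ)} (hr : IsTerm r) (hF : IsTerm F)
    (hF' : IsTerm F') : IsDelta0 (fun v => Dj (r v) (F v) (F' v)) := by
  refine IsDelta0.all hF ?_
  refine IsDelta0.all hF'.tail ?_
  refine IsDelta0.imp ?_ (IsDelta0.not ?_)
  · exact (IsDelta0.mem (IsTerm.var 1) hF.tail.tail).and
      ((IsDelta0.mem (IsTerm.var 1) hr.tail.tail).not.and
        ((IsDelta0.mem (IsTerm.var 0) hF'.tail.tail).and
          (IsDelta0.mem (IsTerm.var 0) hr.tail.tail).not))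
  · refine IsDelta0.ex (IsTerm.var 1) ?_
    exact ((IsDelta0.eq (IsTerm.var 2) (IsTerm.var 0).twomul).or
      (IsDelta0.eq (IsTerm.var 2) ((IsTerm.var 0).twomul.addc 1))).and
      ((IsDelta0.eq (IsTerm.var 1) (IsTerm.var 0).twomul).or
      (IsDelta0.eq (IsTerm.var 1) ((IsTerm.var 0).twomul.addc 1)))

/-- The condition to which the overspill principle is applied. -/
def RP (R : (Fin 3 → (MMt τ)) → Prop) (l r m α : (MMt τ)) : Prop :=
  ∃ E, E ≤ α ∧ ((∀ i, i < m → ∃ F, F ≤ α ∧ (Mem (pr i F) E ∧ Crd F l ∧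
      (∀ x, x ≤ r → Mem x r → Mem x F) ∧ R ![m, α, F])) ∧
    ∀ i, i < m → ∀ i', i' < m → i ≠ i' → ∀ F, F ≤ E → ∀ F', F' ≤ E →
      Mem (pr i F) E → Mem (pr i' F') E → Dj r F F')

theorem isDelta0_RP {R : (Fin 3 → (MMt τ)) → Prop} (hR : IsDelta0 R) (l r : (MMt τ)) :
    IsDelta0 (fun v : Fin 2 → (MMt τ) => RP R l r (v 0) (v 1)) := by
  refine IsDelta0.ex (IsTerm.var 1) ?_
  refine IsDelta0.and ?_ ?_
  · refine IsDelta0.allLt (IsTerm.var 1) ?_
    refine IsDelta0.ex (IsTerm.var 3) ?_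
    refine (IsDelta0.mem (IsTerm.pr (IsTerm.var 1) (IsTerm.var 0)) (IsTerm.var 2)).and ?_
    refine (IsDelta0.crd (IsTerm.var 0) (IsTerm.param l)).and ?_
    refine IsDelta0.and ?_ ?_
    · refine IsDelta0.all (IsTerm.param r) ?_
      exact (IsDelta0.mem (IsTerm.var 0) (IsTerm.param r)).imp
        (IsDelta0.mem (IsTerm.var 0) (IsTerm.var 1))
    · refine (hR.subst (F := ![fun v => v 3, fun v => v 4, fun v => v 0]) ?_).congr fun v => ?_
      · intro i; fin_cases i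
        · exact IsTerm.var 3
        · exact IsTerm.var 4
        · exact IsTerm.var 0
      · have : (![Fin.tail (Fin.tail (Fin.tail v)) 0, Fin.tail (Fin.tail (Fin.tail v)) 1, v 0] :
            Fin 3 → (MMt τ)) = fun i => (![fun v => v 3, fun v => v 4, fun v => v 0] :
            Fin 3 → (Fin 5 → (MMt τ)) → (MMt τ)) i v := by
          funext i; fin_cases i <;> rfl
        rw [this]
  · refine IsDelta0.allLt (IsTerm.var 1) ?_
    refine IsDelta0.allLt (IsTerm.var 2) ?_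
    refine (IsDelta0.ne (IsTerm.var 1) (IsTerm.var 0)).imp ?_
    refine IsDelta0.all (IsTerm.var 2) ?_
    refine IsDelta0.all (IsTerm.var 3) ?_
    refine (IsDelta0.mem (IsTerm.pr (IsTerm.var 3) (IsTerm.var 1)) (IsTerm.var 4)).imp ?_
    refine (IsDelta0.mem (IsTerm.pr (IsTerm.var 2) (IsTerm.var 0)) (IsTerm.var 4)).imp ?_
    exact IsDelta0.dj (IsTerm.param r) (IsTerm.var 1) (IsTerm.var 0)

theorem lit_cases' (p : (MMt τ) × Bool) : lit p = 2 * p.1 ∨ lit p = 2 * p.1 + 1 := by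
  rcases p with ⟨x, b⟩
  cases b
  · left; simp [lit]
  · right; simp [lit]

theorem le_lit' (p : (MMt τ) × Bool) : p.1 ≤ lit p := by
  have h1 : p.1 ≤ 2 * p.1 := by
    have : (2 : (MMt τ)) * p.1 = p.1 + p.1 := two_mul _
    rw [this]; exact le_add_left' _ _
  exact h1.trans (le_add_right' _ _)

/-- Module FS1. -/
theorem fs1_proof (hS : SciStmt τ) (hB : RepBasics τ) (hC : CardStmt τ) : FreshS1 τ := by
  classical
  obtain ⟨hlit, hinj, hrep, hrepu, hcfl, hcrd, hcrdm⟩ := hB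
  intro R hR hmono l ρ hbig Y hY
  obtain ⟨r, hr⟩ := hrep ρ
  have hmr : ∀ p : (MMt τ) × Bool, Mem (lit p) r ↔ p ∈ ρ := by
    intro p
    have : p ∈ (ρ : Set ((MMt τ) × Bool)) ↔ p ∈ LS r := by rw [hr]
    exact this.symm
  -- the condition is monotone
  have hRPmono : ∀ m m' α α' : (MMt τ), m' ≤ m → α ≤ α' → RP R l r m α → RP R l r m' α' := by
    rintro m m' α α' hm hα ⟨E, hE, h1, h2⟩
    refine ⟨E, hE.trans hα, ?_, ?_⟩
    · intro i hi
      obtain ⟨F, hF, h3, h4, h5, h6⟩ := h1 i (hi.trans_le hm)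
      exact ⟨F, hF.trans hα, h3, h4, h5, hmono _ _ _ _ _ hm hα h6⟩
    · intro i hi i' hi'
      exact h2 i (hi.trans_le hm) i' (hi'.trans_le hm)
  -- it holds for all standard numbers
  have hstd : ∀ m : ℕ, ∃ α, RP R l r (m : (MMt τ)) α := by
    intro m
    obtain ⟨f, hf, hdis⟩ := hbig m
    have hf' : ∀ i : Fin m, ∃ F : (MMt τ), Rep F (f i) ∧ (f i).card ≤ l ∧
        ∃ α, R ![(m : (MMt τ)), α, F] := by
      intro i
      obtain ⟨h1, F, h2, h3⟩ := (hf i).1
      exact ⟨F, h2, h1, h3 m⟩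
    choose G hG1 hG2 a ha using hf'
    obtain ⟨E, hE⟩ := exists_code_finset
      (Finset.univ.image fun i : Fin m => pr ((i : ℕ) : (MMt τ)) (G i))
    obtain ⟨β, hβ⟩ := (Set.finite_range a).bddAbove
    have haβ : ∀ i, a i ≤ β := fun i => hβ (Set.mem_range_self i)
    have hmE : ∀ i : Fin m, Mem (pr ((i : ℕ) : (MMt τ)) (G i)) E := by
      intro i
      rw [hE]
      exact Finset.mem_image.2 ⟨i, Finset.mem_univ _, rfl⟩
    have hmem : ∀ (i F : (MMt τ)), Mem (pr i F) E → ∃ j : Fin m, i = ((j : ℕ) : (MMt τ)) ∧ F = G j := by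
      intro i F h
      rw [hE] at h
      obtain ⟨j, _, hj⟩ := Finset.mem_image.1 h
      obtain ⟨h1, h2⟩ := pr_inj.1 hj
      exact ⟨j, h1.symm, h2.symm⟩
    refine ⟨max E β, E, le_max_left _ _, ?_, ?_⟩
    · intro i hi
      obtain ⟨k, hk, rfl⟩ := lt_natCast_iff.1 hi
      refine ⟨G ⟨k, hk⟩, ?_, hmE ⟨k, hk⟩, ?_, ?_, ?_⟩
      · exact ((le_pr_right _ _).trans (mem_lt (hmE ⟨k, hk⟩)).le).trans (le_max_left _ _)
      · exact (hcrd _ _).2 ⟨f ⟨k, hk⟩, hG1 _, hG2 _⟩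
      · intro x _ hx
        obtain ⟨p, rfl⟩ := hlit x
        have h1 : p ∈ f ⟨k, hk⟩ := (hf ⟨k, hk⟩).2 ((hmr p).1 hx)
        have h2 : p ∈ LS (G ⟨k, hk⟩) := by rw [← hG1 ⟨k, hk⟩]; exact h1
        exact h2
      · exact hmono _ _ _ _ _ le_rfl ((haβ _).trans (le_max_right _ _)) (ha ⟨k, hk⟩)
    · intro i hi i' hi' hne F _ F' _ h1 h2
      obtain ⟨j, rfl, rfl⟩ := hmem i F h1
      obtain ⟨j', rfl, rfl⟩ := hmem i' F' h2
      have hjj : j ≠ j' := by
        rintro rfl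
        exact hne rfl
      rintro x _ x' _ ⟨h3, h4, h5, h6⟩ ⟨z, _, h7, h8⟩
      obtain ⟨p, rfl⟩ := hlit x
      obtain ⟨q, rfl⟩ := hlit x'
      have hp : p ∈ f j := by
        have h9 : p ∈ (f j : Set ((MMt τ) × Bool)) := by rw [hG1 j]; exact h3
        exact h9
      have hq : q ∈ f j' := by
        have h9 : q ∈ (f j' : Set ((MMt τ) × Bool)) := by rw [hG1 j']; exact h5
        exact h9
      have hp' : p.1 = z := by
        rcases h7 with h7 | h7
        · have := hinj p (z, false) (by rw [h7]; simp [lit])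
          rw [this]
        · have := hinj p (z, true) (by rw [h7]; simp [lit])
          rw [this]
      have hq' : q.1 = z := by
        rcases h8 with h8 | h8
        · have := hinj q (z, false) (by rw [h8]; simp [lit])
          rw [this]
        · have := hinj q (z, true) (by rw [h8]; simp [lit])
          rw [this]
      exact hdis j j' hjj p hp (fun h => h4 ((hmr p).2 h)) q hq (fun h => h6 ((hmr q).2 h))
        (hp'.trans hq'.symm)
  -- an infinite instance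
  obtain ⟨y, α, hy, E, hE, h1, h2⟩ := (hS (fun v => RP R l r (v 0) (v 1)) (isDelta0_RP hR l r)
    (fun m m' α α' hm hα h => hRPmono m m' α α' hm hα h)).1 (fun m => hstd m)
  have h1' : ∀ i : {x : (MMt τ) | x < y}, ∃ F : (MMt τ), Mem (pr (i : (MMt τ)) F) E ∧ ∃ S : Finset ((MMt τ) × Bool),
      Rep F S ∧ S.card ≤ l ∧ ρ ⊆ S ∧ ∀ m : ℕ, ∃ α, R ![(m : (MMt τ)), α, F] := by
    rintro ⟨i, hi⟩
    obtain ⟨F, _, h3, h4, h5, h6⟩ := h1 i hi
    obtain ⟨S, hS1, hS2⟩ := (hcrd F l).1 h4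
    refine ⟨F, h3, S, hS1, hS2, ?_, ?_⟩
    · intro p hp
      have h7 : Mem (lit p) r := (hmr p).2 hp
      have h8 : p ∈ LS F := h5 _ (mem_lt h7).le h7
      have h9 : p ∈ (S : Set ((MMt τ) × Bool)) := by rw [hS1]; exact h8
      exact h9
    · intro m
      exact ⟨α, hmono _ _ _ _ _ (hy m).le le_rfl h6⟩
  choose F hF S hS1 hS2 hS3 hS4 using h1'
  by_contra hcon
  push Not at hcon
  have h3 : ∀ i : {x : (MMt τ) | x < y}, ∃ p ∈ S i, p ∉ ρ ∧ p.1 ∈ Y := by
    intro i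
    exact hcon (S i) ⟨hS2 i, F i, hS1 i, hS4 i⟩ (hS3 i)
  choose p hp1 hp2 hp3 using h3
  have hinjg : Function.Injective (fun i => (⟨(p i).1, hp3 i⟩ : Y)) := by
    intro i j hij
    by_contra hne
    have hij' : (p i).1 = (p j).1 := congrArg Subtype.val hij
    have hFi := hF i
    have hFj := hF j
    have h4 := h2 i.1 i.2 j.1 j.2 (fun h => hne (Subtype.ext h)) (F i)
      ((le_pr_right _ _).trans (mem_lt hFi).le) (F j)
      ((le_pr_right _ _).trans (mem_lt hFj).le) hFi hFj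
    have h5 : Mem (lit (p i)) (F i) := by
      have h6 : p i ∈ LS (F i) := by rw [← hS1 i]; exact hp1 i
      exact h6
    have h7 : Mem (lit (p j)) (F j) := by
      have h6 : p j ∈ LS (F j) := by rw [← hS1 j]; exact hp1 j
      exact h6
    refine h4 (lit (p i)) (mem_lt h5).le (lit (p j)) (mem_lt h7).le
      ⟨h5, fun h => hp2 i ((hmr _).1 h), h7, fun h => hp2 j ((hmr _).1 h)⟩
      ⟨(p i).1, le_lit' _, lit_cases' _, ?_⟩
    rw [hij']
    exact lit_cases' _
  have h4 := Cardinal.mk_le_of_injective hinjg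
  rw [hC.2 y hy] at h4
  exact absurd hY (not_lt.2 h4)

end Pool.Agent.BSN.H59
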