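import Pool.Agent.Helper26_BSN.Stmts

/-!
# BSN, module OM: the standard part is a cut which is not computable
-/

namespace Pool.Agent.BSN.H59

open Filter Cardinal Pool.Agent.BSig Pool.Agent.BSN

variable {τ : Tower}

theorem mem_pow2_iff' (x y : (MMt τ)) : Mem y (pow2 x) ↔ y = x := by
  obtain ⟨f, hf, rfl⟩ := exists_mk x
  obtain ⟨g, hg, rfl⟩ := exists_mk y
  rw [pow2_mk, mem_mk, mk_eq]
  refine eventually_congr (Eventually.of_forall fun n => ?_)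
  rw [Nat.testBit_two_pow, decide_eq_true_iff]
  exact eq_comm

theorem isCut_omega' : IsCut (omega (MMt τ)) := by
  refine ⟨⟨0, 0, Nat.cast_zero⟩, ?_, ?_, ?_⟩
  · intro h
    have h1 : (aat τ) 0 ∈ omega (MMt τ) := by rw [h]; exact Set.mem_univ _
    obtain ⟨k, hk⟩ := h1
    have h2 := infl_aa (τ := τ) 0 k
    rw [← hk] at h2
    exact lt_irrefl _ h2
  · rintro x ⟨k, rfl⟩ y hy
    have h1 : y < ((k + 1 : ℕ) : (MMt τ)) := by
      rw [Nat.cast_succ]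
      exact hy.trans_lt ((PAExp.discrete _ _).2 le_rfl)
    obtain ⟨j, _, rfl⟩ := lt_natCast_iff.1 h1
    exact ⟨j, rfl⟩
  · rintro x ⟨k, rfl⟩
    exact ⟨k + 1, Nat.cast_succ k⟩

/-- countably many infinite elements have an infinite lower bound -/
theorem exists_infl_lower' (m : ℕ → (MMt τ)) (hm : ∀ k, Infl (m k)) : ∃ ν, Infl ν ∧ ∀ k, ν ≤ m k := by
  obtain ⟨x, _, _, _, _, hx⟩ := saturation (α := ℕ)
    (fun N n x => N ≤ x ∧ ∀ k ≤ N, x ≤ rep (m k) n)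
    (fun N n x h => ⟨by omega, fun k hk => h.2 k (by omega)⟩)
    (fun N => by
      have h1 : ∀ᶠ n in (UU : Filter ℕ), ∀ k ∈ Finset.range (N + 1), N ≤ rep (m k) n := by
        rw [Filter.eventually_all_finset]
        intro k _
        have h2 := (hm k N).le
        rw [natCast_mk, ← mk_rep (m k), mk_le] at h2
        exact h2
      filter_upwards [h1] with n hn
      exact ⟨N, le_rfl, fun k hk => hn k (Finset.mem_range.2 (by omega))⟩)
  have hb : (Bddt τ) x := bdd_of_le (bdd_rep (m 0)) ((hx 0).mono fun n h => h.2 0 le_rfl)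
  refine ⟨mk x hb, ?_, ?_⟩
  · intro n
    rw [natCast_mk, mk_lt]
    exact (hx (n + 1)).mono fun i h => by have := h.1; omega
  · intro k
    rw [← mk_rep (m k), mk_le]
    exact (hx k).mono fun i h => h.2 k le_rfl

theorem exists_pred_infl' {ν : (MMt τ)} (h : Infl ν) : ∃ μ : (MMt τ), Infl μ ∧ μ < ν := by
  obtain ⟨z, hz⟩ := PAExp.exists_add 1 ν (by
    have := h 1; rw [Nat.cast_one] at this; exact this.le)
  refine ⟨z, ?_, ?_⟩
  · intro n
    by_contra hn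
    rw [not_lt] at hn
    have h2 := h (n + 1)
    rw [← hz, Nat.cast_succ] at h2
    have := PAExp.add_le_add' _ _ 1 hn
    rw [add_comm 1 z] at h2
    exact absurd h2 (not_lt.2 this)
  · rw [← hz, add_comm]
    exact (PAExp.discrete _ _).2 le_rfl

theorem not_red_omega' : ¬ Red (omega (MMt τ)) ∅ := by
  rintro ⟨Φ, hΦ, h⟩
  obtain ⟨Q, hQ, hQ2⟩ := Sig1.of_isSigma hΦ
  -- the approximations
  have hS : ∀ k : ℕ, Int1 (fun x : (MMt τ) => ∃ p, p ≤ (aat τ) k ∧ ∃ q, q ≤ (aat τ) k ∧ ∃ a, a ≤ (aat τ) k ∧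
      (Q ![a, pow2 x, 0, p, q] ∧ ∀ y, y ≤ p → ¬ Mem y p)) := by
    intro k
    apply Int1.of_delta0
    refine IsDelta0.ex (IsTerm.param _) ?_
    refine IsDelta0.ex (IsTerm.param _) ?_
    refine IsDelta0.ex (IsTerm.param _) ?_
    refine IsDelta0.and ?_ ?_
    · refine (hQ.subst (F := ![fun v => v 0, fun v => pow2 (v 3), fun _ => 0, fun v => v 2,
        fun v => v 1]) ?_).congr fun v => ?_
      · intro i; fin_cases i
        · exact IsTerm.var 0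
        · exact (IsTerm.var 3).pow2
        · exact IsTerm.param 0
        · exact IsTerm.var 2
        · exact IsTerm.var 1
      · have : (![v 0, pow2 (Fin.tail (Fin.tail (Fin.tail v)) 0), 0,
          Fin.tail (Fin.tail v) 0, Fin.tail v 0] : Fin 5 → (MMt τ)) =
          fun i => (![fun v => v 0, fun v => pow2 (v 3), fun _ => 0, fun v => v 2,
            fun v => v 1] : Fin 5 → (Fin 4 → (MMt τ)) → (MMt τ)) i v := by
          funext i; fin_cases i <;> rfl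
        rw [this]
    · refine IsDelta0.all (IsTerm.var 2) ?_
      exact (IsDelta0.mem (IsTerm.var 0) (IsTerm.var 3)).not
  have hout : ∀ (k : ℕ) (x : (MMt τ)), (∃ p, p ≤ (aat τ) k ∧ ∃ q, q ≤ (aat τ) k ∧ ∃ a, a ≤ (aat τ) k ∧
      (Q ![a, pow2 x, 0, p, q] ∧ ∀ y, y ≤ p → ¬ Mem y p)) → Infl x := by
    rintro k x ⟨p, _, q, _, a, _, hq, hp⟩
    have h1 := (h (pow2 x) 0 (Or.inl rfl)).2 ⟨p, q, (hQ2 _).2 ⟨a, hq⟩, fun y hy =>
      absurd hy (hp y (mem_lt hy).le), fun y _ => Set.notMem_empty y⟩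
    have h2 : x ∈ sgn (omega (MMt τ)) 0 := h1 ((mem_pow2_iff' x x).2 rfl)
    rcases h2 with ⟨h3, _⟩ | ⟨_, h3⟩
    · exact absurd h3 PAExp.zero_ne_one'
    · by_contra hc
      obtain ⟨j, hj⟩ := not_infl_iff.1 hc
      exact h3 ⟨j, hj.symm⟩
  have hin : ∀ x : (MMt τ), Infl x → ∃ k : ℕ, (∃ p, p ≤ (aat τ) k ∧ ∃ q, q ≤ (aat τ) k ∧ ∃ a, a ≤ (aat τ) k ∧
      (Q ![a, pow2 x, 0, p, q] ∧ ∀ y, y ≤ p → ¬ Mem y p)) := by
    intro x hx
    have h1 : decode (pow2 x) ⊆ sgn (omega (MMt τ)) 0 := by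
      intro y hy
      have hyx : y = x := (mem_pow2_iff' x y).1 hy
      refine Or.inr ⟨rfl, ?_⟩
      rintro ⟨j, hj⟩
      have := hx j
      rw [← hyx, ← hj] at this
      exact lt_irrefl _ this
    obtain ⟨p, q, hΦpq, hp, _⟩ := (h (pow2 x) 0 (Or.inl rfl)).1 h1
    obtain ⟨a, ha⟩ := (hQ2 _).1 hΦpq
    obtain ⟨k1, hk1⟩ := exists_le_aa p
    obtain ⟨k2, hk2⟩ := exists_le_aa q
    obtain ⟨k3, hk3⟩ := exists_le_aa a
    refine ⟨max k1 (max k2 k3), p, hk1 _ (le_max_left _ _), q,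
      hk2 _ ((le_max_left _ _).trans (le_max_right _ _)), a,
      hk3 _ ((le_max_right _ _).trans (le_max_right _ _)), ha, ?_⟩
    intro y _ hy
    exact Set.notMem_empty y (hp hy)
  -- minima
  have hmin : ∀ k : ℕ, ∃ m, Infl m ∧ ∀ x, (∃ p, p ≤ (aat τ) k ∧ ∃ q, q ≤ (aat τ) k ∧ ∃ a, a ≤ (aat τ) k ∧
      (Q ![a, pow2 x, 0, p, q] ∧ ∀ y, y ≤ p → ¬ Mem y p)) → m ≤ x := by
    intro k
    by_cases hne : ∃ x, (∃ p, p ≤ (aat τ) k ∧ ∃ q, q ≤ (aat τ) k ∧ ∃ a, a ≤ (aat τ) k ∧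
      (Q ![a, pow2 x, 0, p, q] ∧ ∀ y, y ≤ p → ¬ Mem y p))
    · obtain ⟨m, hm, hm2⟩ := (hS k).least hne
      exact ⟨m, hout k m hm, hm2⟩
    · exact ⟨(aat τ) 0, infl_aa 0, fun x hx => absurd ⟨x, hx⟩ hne⟩
  choose m hm1 hm2 using hmin
  obtain ⟨ν, hν, hν2⟩ := exists_infl_lower' m hm1
  obtain ⟨μ, hμ, hμ2⟩ := exists_pred_infl' hν
  obtain ⟨k, hk⟩ := hin μ hμ
  exact absurd (hm2 k μ hk) (not_le.2 (hμ2.trans_le (hν2 k)))

/-- Module OM. -/
theorem om_proof : OmegaStmt τ := ⟨isCut_omega', not_red_omega'⟩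

/-- Module INF, as a by-product. -/
theorem inf_proof : InfStmt τ := fun y hy => exists_infl_lower' y hy

end Pool.Agent.BSN.H59
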